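import Pool.Agent.Lib.H41CE.I2
import Pool.Agent.Lib.H49I.I3

/-! # Points with bounded denominators of the solution set of a system -/

set_option autoImplicit false

namespace Pool.Agent.Lib.H41CE

open H58D

/-- Nullstellensatz certificate at the points `x` of `Sol S` for which all `D * x i` are algebraic integers. -/
theorem certificateD {n : ℕ} (S : Set (Eqn n)) (p : MvPolynomial (Fin n) ℤ)
    (h : ∀ x ∈ Sol S, MvPolynomial.aeval x p ≠ 0) (D : ℕ) (hD : 0 < D) :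
    ∃ N : ℕ, 0 < N ∧ ∀ x ∈ Sol S, (∀ i, IsIntegral ℤ ((D : ℂ) * x i)) →
      ∃ z : ℂ, IsIntegral ℤ z ∧ z * MvPolynomial.aeval x p = N := by
  classical
  set q : MvPolynomial (Fin n) ℚ := MvPolynomial.map (algebraMap ℤ ℚ) p with hqd
  have hq : ∀ x : Fin n → ℂ, MvPolynomial.aeval x q = MvPolynomial.aeval x p := fun x => by
    rw [hqd, MvPolynomial.aeval_map_algebraMap]
  have hJ : ∀ x ∈ Sol S, ∀ f ∈ Ideal.span (eqP '' S), MvPolynomial.aeval x f = 0 := by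
    intro x hx f hf
    have hle : Ideal.span (eqP '' S) ≤ RingHom.ker (MvPolynomial.aeval x : MvPolynomial (Fin n) ℚ →ₐ[ℚ] ℂ) := by
      rw [Ideal.span_le]
      rintro _ ⟨e, he, rfl⟩
      exact (aeval_eqP x e).2 (hx e he)
    exact hle hf
  have htop : Ideal.span (eqP '' S) ⊔ Ideal.span {q} = ⊤ := by
    rw [← Ideal.radical_eq_top, ← MvPolynomial.vanishingIdeal_zeroLocus_eq_radical (K := ℂ)]
    have hz : MvPolynomial.zeroLocus ℂ (Ideal.span (eqP '' S) ⊔ Ideal.span {q}) = (∅ : Set (Fin n → ℂ)) := by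
      rw [Set.eq_empty_iff_forall_notMem]
      intro x hx
      have hS : x ∈ Sol S := fun e he =>
        (aeval_eqP x e).1 (hx _ (Ideal.mem_sup_left (Ideal.subset_span ⟨e, he, rfl⟩)))
      apply h x hS
      rw [← hq]
      exact hx _ (Ideal.mem_sup_right (Ideal.mem_span_singleton_self q))
    rw [hz, MvPolynomial.vanishingIdeal_empty]
  obtain ⟨f, hf, g', hg', hfg⟩ := Submodule.mem_sup.1 ((Ideal.eq_top_iff_one _).1 htop)
  obtain ⟨g, rfl⟩ := Ideal.mem_span_singleton'.1 hg'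
  obtain ⟨N, hN⟩ : ∃ N : ℕ, N = ∏ m ∈ g.support, (g.coeff m).den := ⟨_, rfl⟩
  have hN0 : 0 < N := by
    rw [hN]
    exact Finset.prod_pos fun m _ => (g.coeff m).den_pos
  refine ⟨N * D ^ g.totalDegree, Nat.mul_pos hN0 (pow_pos hD _), fun x hx hint =>
    ⟨N * (D : ℂ) ^ g.totalDegree * MvPolynomial.aeval x g, ?_, ?_⟩⟩
  · rw [MvPolynomial.aeval_def, MvPolynomial.eval₂_eq, Finset.mul_sum]
    refine IsIntegral.sum _ fun m hm => ?_
    obtain ⟨r, hr⟩ := Nat.exists_eq_add_of_le (MvPolynomial.le_totalDegree hm)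
    have hpw : (D : ℂ) ^ g.totalDegree * ∏ i ∈ m.support, x i ^ m i =
        (D : ℂ) ^ r * ∏ i ∈ m.support, ((D : ℂ) * x i) ^ m i := by
      rw [hr, pow_add, Finsupp.sum, ← Finset.prod_pow_eq_pow_sum]
      simp only [mul_pow, Finset.prod_mul_distrib]
      ring
    have hd : (g.coeff m).den ∣ N := by
      rw [hN]
      exact Finset.dvd_prod_of_mem (fun m => (g.coeff m).den) hm
    obtain ⟨c, hc⟩ := hd
    have h1 : ((N : ℚ)) * g.coeff m = ((c * (g.coeff m).num : ℤ) : ℚ) := by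
      rw [hc]
      push_cast
      have := Rat.mul_den_eq_num (g.coeff m)
      linear_combination (c : ℚ) * this
    have h2 : (N : ℂ) * (algebraMap ℚ ℂ) (g.coeff m) = algebraMap ℤ ℂ (c * (g.coeff m).num) := by
      have := congrArg (algebraMap ℚ ℂ) h1
      rw [map_mul, map_natCast] at this
      rw [this]
      simp
    have h3 : (N : ℂ) * (D : ℂ) ^ g.totalDegree * ((algebraMap ℚ ℂ) (g.coeff m) * ∏ i ∈ m.support, x i ^ m i) =
        algebraMap ℤ ℂ (c * (g.coeff m).num) * ((D : ℂ) ^ r * ∏ i ∈ m.support, ((D : ℂ) * x i) ^ m i) := by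
      rw [← h2, ← hpw]
      ring
    rw [h3]
    refine IsIntegral.mul isIntegral_algebraMap (IsIntegral.mul ?_ (IsIntegral.prod _ fun i _ => (hint i).pow _))
    refine IsIntegral.pow ?_ r
    have : (D : ℂ) = algebraMap ℤ ℂ (D : ℤ) := by simp
    rw [this]
    exact isIntegral_algebraMap
  · have h3 := congrArg (MvPolynomial.aeval x) hfg
    rw [map_add, map_mul, hJ x hx f hf, hq, zero_add, map_one] at h3
    push_cast
    rw [mul_assoc, h3, mul_one]

theorem int32D (f : Polynomial ℤ) (hf : f.natDegree ≤ 5) (D : ℕ) (c : ℚ)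
    (hc : c = 0 ∨ c = 1 ∨ c = -1 ∨ c = 2 ∨ c = 1 / 2) :
    ∃ z : ℤ, 32 * Polynomial.aeval ((D : ℚ) * c) f = z := by
  have h : Polynomial.aeval ((D : ℚ) * c) f = ∑ i ∈ Finset.range 6, (f.coeff i : ℚ) * ((D : ℚ) * c) ^ i := by
    rw [Polynomial.aeval_eq_sum_range' (n := 6) (by omega)]
    exact Finset.sum_congr rfl fun i _ => by rw [zsmul_eq_mul]
  rw [h]
  simp only [Finset.sum_range_succ, Finset.sum_range_zero]
  rcases hc with rfl | rfl | rfl | rfl | rfl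
  · exact ⟨32 * f.coeff 0, by push_cast; ring⟩
  · exact ⟨32 * (f.coeff 0 + f.coeff 1 * D + f.coeff 2 * D ^ 2 + f.coeff 3 * D ^ 3 + f.coeff 4 * D ^ 4
      + f.coeff 5 * D ^ 5), by push_cast; ring⟩
  · exact ⟨32 * (f.coeff 0 - f.coeff 1 * D + f.coeff 2 * D ^ 2 - f.coeff 3 * D ^ 3 + f.coeff 4 * D ^ 4
      - f.coeff 5 * D ^ 5), by push_cast; ring⟩
  · exact ⟨32 * (f.coeff 0 + 2 * f.coeff 1 * D + 4 * f.coeff 2 * D ^ 2 + 8 * f.coeff 3 * D ^ 3 + 16 * f.coeff 4 * D ^ 4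
      + 32 * f.coeff 5 * D ^ 5), by push_cast; ring⟩
  · exact ⟨32 * f.coeff 0 + 16 * f.coeff 1 * D + 8 * f.coeff 2 * D ^ 2 + 4 * f.coeff 3 * D ^ 3 + 2 * f.coeff 4 * D ^ 4
      + f.coeff 5 * D ^ 5, by push_cast; ring⟩

theorem fin_polysD (D : ℕ) (hD : 0 < D) (B : ℚ) : {f : Polynomial ℤ | f.Monic ∧ f.natDegree ≤ 5 ∧
    ∀ c ∈ ({0, 1, -1, 2, 1 / 2} : Finset ℚ), |Polynomial.aeval ((D : ℚ) * c) f| ≤ B}.Finite := by
  classical
  set M : ℤ := ⌈32 * B⌉ with hM
  set T : Set ℚ := (fun z : ℤ => (z : ℚ) / 32) '' (Set.Icc (-M) M) with hT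
  have hTf : T.Finite := (Set.finite_Icc (-M) M).image _
  set Φ : Polynomial ℤ → ℕ × ℚ × ℚ × ℚ × ℚ × ℚ := fun f =>
    (f.natDegree, Polynomial.aeval ((D : ℚ) * 0) f, Polynomial.aeval ((D : ℚ) * 1) f,
      Polynomial.aeval ((D : ℚ) * (-1)) f,
      Polynomial.aeval ((D : ℚ) * 2) f, Polynomial.aeval ((D : ℚ) * (1 / 2)) f) with hΦ
  have hval : ∀ f : Polynomial ℤ, f.natDegree ≤ 5 → ∀ c : ℚ,
      (c = 0 ∨ c = 1 ∨ c = -1 ∨ c = 2 ∨ c = 1 / 2) → |Polynomial.aeval ((D : ℚ) * c) f| ≤ B →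
      Polynomial.aeval ((D : ℚ) * c) f ∈ T := by
    intro f hf c hc hb
    obtain ⟨z, hz⟩ := int32D f hf D c hc
    refine ⟨z, ?_, by simp only; rw [← hz]; ring⟩
    rw [abs_le] at hb
    have h1 : (z : ℚ) ≤ 32 * B := by rw [← hz]; linarith [hb.2]
    have h2 : -(32 * B) ≤ (z : ℚ) := by rw [← hz]; linarith [hb.1]
    have h3 : (32 * B : ℚ) ≤ M := Int.le_ceil _
    constructor
    · have : ((-M : ℤ) : ℚ) ≤ z := by push_cast; linarith
      exact_mod_cast this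
    · have : (z : ℚ) ≤ (M : ℚ) := by linarith
      exact_mod_cast this
  refine Set.Finite.of_injOn (f := Φ) (t := Set.Iic 5 ×ˢ T ×ˢ T ×ˢ T ×ˢ T ×ˢ T) ?_ ?_
    ((Set.finite_Iic 5).prod (hTf.prod (hTf.prod (hTf.prod (hTf.prod hTf)))))
  · rintro f ⟨_, hd, hb⟩
    refine ⟨hd, hval f hd 0 (by tauto) (hb 0 (by simp)), hval f hd 1 (by tauto) (hb 1 (by simp)),
      hval f hd (-1) (by tauto) (hb (-1) (by simp)), hval f hd 2 (by tauto) (hb 2 (by simp)),
      hval f hd (1 / 2) (by tauto) (hb (1 / 2) (by simp))⟩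
  · rintro f ⟨hf, hfd, _⟩ g ⟨hg, hgd, _⟩ h
    simp only [hΦ, Prod.mk.injEq] at h
    obtain ⟨h0, h1, h2, h3, h4, h5⟩ := h
    have hinj : Function.Injective (algebraMap ℤ ℚ) := Int.cast_injective
    apply Polynomial.map_injective _ hinj
    have hF : (f.map (algebraMap ℤ ℚ)).Monic := hf.map _
    have hG : (g.map (algebraMap ℤ ℚ)).Monic := hg.map _
    have hFd : (f.map (algebraMap ℤ ℚ)).natDegree = f.natDegree := hf.natDegree_map _
    have hGd : (g.map (algebraMap ℤ ℚ)).natDegree = g.natDegree := hg.natDegree_map _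
    have hlt := Polynomial.degree_sub_lt (p := f.map (algebraMap ℤ ℚ)) (q := g.map (algebraMap ℤ ℚ))
      (by rw [Polynomial.degree_eq_natDegree hF.ne_zero, Polynomial.degree_eq_natDegree hG.ne_zero,
        hFd, hGd, h0]) hF.ne_zero (by rw [hF.leadingCoeff, hG.leadingCoeff])
    have hD' : (D : ℚ) ≠ 0 := by exact_mod_cast hD.ne'
    have hcard0 : ({0, 1, -1, 2, 1 / 2} : Finset ℚ).card = 5 := by norm_num [Finset.card_insert_of_notMem]
    have hcard : (({0, 1, -1, 2, 1 / 2} : Finset ℚ).image fun c => (D : ℚ) * c).card = 5 := by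
      rw [Finset.card_image_of_injective _ (mul_right_injective₀ hD'), hcard0]
    apply Polynomial.eq_of_degree_sub_lt_of_eval_finset_eq
      (({0, 1, -1, 2, 1 / 2} : Finset ℚ).image fun c => (D : ℚ) * c)
    · rw [hcard]
      refine lt_of_lt_of_le hlt ?_
      rw [Polynomial.degree_eq_natDegree hF.ne_zero, hFd]
      exact_mod_cast hfd
    · intro c' hc'
      obtain ⟨c, hc, rfl⟩ := Finset.mem_image.1 hc'
      rw [Polynomial.eval_map_algebraMap, Polynomial.eval_map_algebraMap]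
      simp only [Finset.mem_insert, Finset.mem_singleton] at hc
      rcases hc with rfl | rfl | rfl | rfl | rfl
      · exact h1
      · exact h2
      · exact h3
      · exact h4
      · exact h5

/-- A coordinate which omits the five values on the solution set: its values of degree at most 5 at the points with
denominators dividing `D`. -/
theorem coordD {n : ℕ} (S : Set (Eqn n)) (i : Fin n) (D : ℕ) (hD : 0 < D)
    (h0 : ∀ x ∈ Sol S, x i ≠ 0) (h1 : ∀ x ∈ Sol S, x i ≠ 1) (h2 : ∀ x ∈ Sol S, x i ≠ -1)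
    (h3 : ∀ x ∈ Sol S, x i ≠ 2) (h4 : ∀ x ∈ Sol S, 2 * x i ≠ 1) :
    ∃ F : Set ℂ, F.Finite ∧ ∀ x ∈ Sol S, (∀ j, IsIntegral ℤ ((D : ℂ) * x j)) →
      (minpoly ℤ ((D : ℂ) * x i)).natDegree ≤ 5 → x i ∈ F := by
  have hDC : (D : ℂ) ≠ 0 := by exact_mod_cast hD.ne'
  -- uniform bound for one value
  have key : ∀ a b : ℤ, 1 ≤ a → (∀ x ∈ Sol S, (a : ℂ) * x i ≠ b) →
      ∃ N : ℕ, ∀ x ∈ Sol S, (∀ j, IsIntegral ℤ ((D : ℂ) * x j)) →
        (minpoly ℤ ((D : ℂ) * x i)).natDegree ≤ 5 →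
        |Polynomial.aeval ((((D : ℤ) * b : ℤ) : ℚ) / a) (minpoly ℤ ((D : ℂ) * x i))| ≤ (N : ℚ) ^ 5 := by
    intro a b ha hne
    obtain ⟨N, hN, hc⟩ := certificateD S (MvPolynomial.C a * MvPolynomial.X i - MvPolynomial.C b) (by
      intro x hx he
      apply hne x hx
      simp only [map_sub, map_mul, MvPolynomial.aeval_X, MvPolynomial.aeval_C] at he
      have he' : (a : ℂ) * x i - b = 0 := by simpa using he
      linear_combination he') D hD
    refine ⟨D * N, fun x hx hint hdeg => ?_⟩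
    obtain ⟨z, hz, hzN⟩ := hc x hx hint
    have hzN' : z * (a * x i - b) = N := by
      simp only [map_sub, map_mul, MvPolynomial.aeval_X, MvPolynomial.aeval_C] at hzN
      simpa using hzN
    have hDN : 0 < D * N := Nat.mul_pos hD hN
    have hzN2 : z * (a * ((D : ℂ) * x i) - (((D : ℤ) * b : ℤ) : ℂ)) = ((D * N : ℕ) : ℂ) := by
      push_cast
      linear_combination (D : ℂ) * hzN'
    refine (Pool.Agent.Lib.H49I.value_bound ha hDN (hint i) hz hzN2).trans ?_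
    exact pow_le_pow_right₀ (by exact_mod_cast hDN) hdeg
  obtain ⟨N0, k0⟩ := key 1 0 le_rfl (by simpa using h0)
  obtain ⟨N1, k1⟩ := key 1 1 le_rfl (by simpa using h1)
  obtain ⟨N2, k2⟩ := key 1 (-1) le_rfl (by simpa using h2)
  obtain ⟨N3, k3⟩ := key 1 2 le_rfl (by simpa using h3)
  obtain ⟨N4, k4⟩ := key 2 1 (by norm_num) (by simpa using h4)
  set B : ℚ := (N0 : ℚ) ^ 5 + (N1 : ℚ) ^ 5 + (N2 : ℚ) ^ 5 + (N3 : ℚ) ^ 5 + (N4 : ℚ) ^ 5 with hB
  have p0 : (0 : ℚ) ≤ (N0 : ℚ) ^ 5 := by positivity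
  have p1 : (0 : ℚ) ≤ (N1 : ℚ) ^ 5 := by positivity
  have p2 : (0 : ℚ) ≤ (N2 : ℚ) ^ 5 := by positivity
  have p3 : (0 : ℚ) ≤ (N3 : ℚ) ^ 5 := by positivity
  have p4 : (0 : ℚ) ≤ (N4 : ℚ) ^ 5 := by positivity
  have hfin := fin_polysD D hD B
  refine ⟨(fun y => y / (D : ℂ)) '' ⋃ f ∈ {f : Polynomial ℤ | f.Monic ∧ f.natDegree ≤ 5 ∧
    ∀ c ∈ ({0, 1, -1, 2, 1 / 2} : Finset ℚ), |Polynomial.aeval ((D : ℚ) * c) f| ≤ B},
    ((f.aroots ℂ).toFinset : Set ℂ), ?_, ?_⟩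
  · exact (hfin.biUnion fun f _ => Finset.finite_toSet _).image _
  · intro x hx hint hdeg
    have hmon := minpoly.monic (hint i)
    refine ⟨(D : ℂ) * x i, Set.mem_biUnion (x := minpoly ℤ ((D : ℂ) * x i)) ⟨hmon, hdeg, ?_⟩ ?_, ?_⟩
    · intro c hc
      simp only [Finset.mem_insert, Finset.mem_singleton] at hc
      rcases hc with rfl | rfl | rfl | rfl | rfl
      · have := k0 x hx hint hdeg
        rw [show ((((D : ℤ) * 0 : ℤ) : ℚ) / ((1 : ℤ) : ℚ)) = (D : ℚ) * 0 by push_cast; ring] at this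
        linarith
      · have := k1 x hx hint hdeg
        rw [show ((((D : ℤ) * 1 : ℤ) : ℚ) / ((1 : ℤ) : ℚ)) = (D : ℚ) * 1 by push_cast; ring] at this
        linarith
      · have := k2 x hx hint hdeg
        rw [show ((((D : ℤ) * (-1) : ℤ) : ℚ) / ((1 : ℤ) : ℚ)) = (D : ℚ) * (-1) by push_cast; ring] at this
        linarith
      · have := k3 x hx hint hdeg
        rw [show ((((D : ℤ) * 2 : ℤ) : ℚ) / ((1 : ℤ) : ℚ)) = (D : ℚ) * 2 by push_cast; ring] at this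
        linarith
      · have := k4 x hx hint hdeg
        rw [show ((((D : ℤ) * 1 : ℤ) : ℚ) / ((2 : ℤ) : ℚ)) = (D : ℚ) * (1 / 2) by push_cast; ring] at this
        linarith
    · rw [Finset.mem_coe, Multiset.mem_toFinset, Polynomial.mem_aroots]
      exact ⟨hmon.ne_zero, minpoly.aeval ℤ ((D : ℂ) * x i)⟩
    · show (D : ℂ) * x i / (D : ℂ) = x i
      field_simp

end Pool.Agent.Lib.H41CE
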