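import Pool.Agent.Lib.H58D.Sys

/-! # A certificate of Nullstellensatz type at integral points (parallel proof of the chunk H49I.I2) -/

set_option autoImplicit false

namespace Pool.Agent.Lib.H41CE

open H58D

/-- The polynomial of an equation. -/
noncomputable def eqP {n : ℕ} : Eqn n → MvPolynomial (Fin n) ℚ
  | Eqn.one i => MvPolynomial.X i - 1
  | Eqn.add i j k => MvPolynomial.X i + MvPolynomial.X j - MvPolynomial.X k
  | Eqn.mul i j k => MvPolynomial.X i * MvPolynomial.X j - MvPolynomial.X k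

theorem aeval_eqP {n : ℕ} (x : Fin n → ℂ) (e : Eqn n) : MvPolynomial.aeval x (eqP e) = 0 ↔ Holds x e := by
  cases e <;> simp [eqP, Holds, sub_eq_zero]

theorem certificate {n : ℕ} (S : Set (Eqn n)) (p : MvPolynomial (Fin n) ℤ)
    (h : ∀ x ∈ Sol S, MvPolynomial.aeval x p ≠ 0) :
    ∃ N : ℕ, 0 < N ∧ ∀ x ∈ Sol S, (∀ i, IsIntegral ℤ (x i)) →
      ∃ z : ℂ, IsIntegral ℤ z ∧ z * MvPolynomial.aeval x p = N := by
  classical
  set q : MvPolynomial (Fin n) ℚ := MvPolynomial.map (algebraMap ℤ ℚ) p with hqd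
  have hq : ∀ x : Fin n → ℂ, MvPolynomial.aeval x q = MvPolynomial.aeval x p := fun x => by
    rw [hqd, MvPolynomial.aeval_map_algebraMap]
  have hJ : ∀ x ∈ Sol S, ∀ f ∈ Ideal.span (eqP '' S), MvPolynomial.aeval x f = 0 := by
    intro x hx f hf
    have hle : Ideal.span (eqP '' S) ≤ RingHom.ker (MvPolynomial.aeval x : MvPolynomial (Fin n) ℚ →ₐ[ℚ] ℂ) := by
      rw [Ideal.span_le]
      rintro _ ⟨e, he, rfl⟩
      exact (aeval_eqP x e).2 (hx e he)
    exact hle hf
  have htop : Ideal.span (eqP '' S) ⊔ Ideal.span {q} = ⊤ := by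
    rw [← Ideal.radical_eq_top, ← MvPolynomial.vanishingIdeal_zeroLocus_eq_radical (K := ℂ)]
    have hz : MvPolynomial.zeroLocus ℂ (Ideal.span (eqP '' S) ⊔ Ideal.span {q}) = (∅ : Set (Fin n → ℂ)) := by
      rw [Set.eq_empty_iff_forall_notMem]
      intro x hx
      have hS : x ∈ Sol S := fun e he =>
        (aeval_eqP x e).1 (hx _ (Ideal.mem_sup_left (Ideal.subset_span ⟨e, he, rfl⟩)))
      apply h x hS
      rw [← hq]
      exact hx _ (Ideal.mem_sup_right (Ideal.mem_span_singleton_self q))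
    rw [hz, MvPolynomial.vanishingIdeal_empty]
  obtain ⟨f, hf, g', hg', hfg⟩ := Submodule.mem_sup.1 ((Ideal.eq_top_iff_one _).1 htop)
  obtain ⟨g, rfl⟩ := Ideal.mem_span_singleton'.1 hg'
  obtain ⟨N, hN⟩ : ∃ N : ℕ, N = ∏ m ∈ g.support, (g.coeff m).den := ⟨_, rfl⟩
  have hN0 : 0 < N := by
    rw [hN]
    exact Finset.prod_pos fun m _ => (g.coeff m).den_pos
  refine ⟨N, hN0, fun x hx hint => ⟨N * MvPolynomial.aeval x g, ?_, ?_⟩⟩
  · rw [MvPolynomial.aeval_def, MvPolynomial.eval₂_eq, Finset.mul_sum]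
    refine IsIntegral.sum _ fun m hm => ?_
    rw [← mul_assoc]
    refine IsIntegral.mul ?_ (IsIntegral.prod _ fun i _ => (hint i).pow _)
    have hd : (g.coeff m).den ∣ N := by
      rw [hN]
      exact Finset.dvd_prod_of_mem (fun m => (g.coeff m).den) hm
    obtain ⟨c, hc⟩ := hd
    have h1 : ((N : ℚ)) * g.coeff m = ((c * (g.coeff m).num : ℤ) : ℚ) := by
      rw [hc]
      push_cast
      have := Rat.mul_den_eq_num (g.coeff m)
      linear_combination (c : ℚ) * this
    have h2 : (N : ℂ) * (algebraMap ℚ ℂ) (g.coeff m) = algebraMap ℤ ℂ (c * (g.coeff m).num) := by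
      have := congrArg (algebraMap ℚ ℂ) h1
      rw [map_mul, map_natCast] at this
      rw [this]
      simp
    rw [h2]
    exact isIntegral_algebraMap
  · have h3 := congrArg (MvPolynomial.aeval x) hfg
    rw [map_add, map_mul, hJ x hx f hf, hq, zero_add, map_one] at h3
    rw [mul_assoc, h3, mul_one]

end Pool.Agent.Lib.H41CE
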